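import Pool.Agent.Helper51.Hart.Defs2

/-! HT-17: holomorphic approximation of the jets in one box -/

set_option autoImplicit false

noncomputable section

open Set Metric Complex MeasureTheory

namespace Pool.Helper51.Hart

variable {σ : ℝ × ℂ → ℝ} {m : ℕ} {A0 A1 A2 : ℝ → ℂ → ℂ}

open Classical in
/-- the planar function given by `A` in a box -/
def h32At (σ : ℝ × ℂ → ℝ) (a b : ℝ) (w₀ : ℂ) (δ : ℝ) (A : ℝ → ℂ → ℂ) (w : ℂ) : ℂ :=
  if h : ∃ r, InBox σ a b w₀ δ r w then A h.choose w else 0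

theorem h32At_eq {a b δ : ℝ} {w₀ : ℂ} {A : ℝ → ℂ → ℂ}
    (hA : ∀ r r' w, InBox σ a b w₀ δ r w → InBox σ a b w₀ δ r' w → A r w = A r' w)
    {r : ℝ} {w : ℂ} (h : InBox σ a b w₀ δ r w) : h32At σ a b w₀ δ A w = A r w := by
  have hex : ∃ r, InBox σ a b w₀ δ r w := ⟨r, h⟩
  rw [h32At, dif_pos hex]
  exact hA _ _ _ hex.choose_spec h

theorem h32_hasDerivAt {f : ℂ → ℂ} {f' w : ℂ} {K : ℝ}
    (h : ∀ᶠ w' in nhds w, ‖f w' - f w - f' * (w' - w)‖ ≤ K * ‖w' - w‖ ^ 2) :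
    HasDerivAt f f' w := by
  have h1 : (fun w' => f w' - f w - f' * (w' - w)) =O[nhds w] fun w' => ‖w' - w‖ ^ 2 := by
    refine Asymptotics.IsBigO.of_bound K (h.mono fun w' hw' => ?_)
    simpa using hw'
  have h2 : HasFDerivAt (𝕜 := ℂ) (fun w' => f w' - f w - f' * (w' - w)) 0 w :=
    h1.hasFDerivAt (by norm_num)
  have h3 : HasDerivAt (fun w' => f w' - f w - f' * (w' - w)) 0 w := by
    simpa using h2.hasDerivAt
  have h4 : HasDerivAt (fun w' : ℂ => f' * (w' - w)) f' w := by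
    simpa using ((hasDerivAt_id w).sub_const w).const_mul f'
  have h5 := (h3.add h4).add_const (f w)
  have h6 : (fun w' => f w' - f w - f' * (w' - w) + f' * (w' - w) + f w) = f := by
    funext w'
    ring
  simpa [h6] using h5

/-- the planar interior of a box -/
def h32O (σ : ℝ × ℂ → ℝ) (a b : ℝ) (w₀ : ℂ) (δ : ℝ) : Set ℂ :=
  {w | ‖w - w₀‖ < δ ∧ ∃ r, 0 ≤ r ∧ a < r ∧ r < b ∧ σ (r, w) < 0}

theorem h32O_open (hσ : Continuous σ) (a b : ℝ) (w₀ : ℂ) (δ : ℝ) :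
    IsOpen (h32O σ a b w₀ δ) := by
  have : h32O σ a b w₀ δ = {w | ‖w - w₀‖ < δ} ∩
      ⋃ (r : ℝ) (_ : 0 ≤ r ∧ a < r ∧ r < b), {w | σ (r, w) < 0} := by
    ext w
    simp only [h32O, mem_ofPred_eq, mem_inter_iff, mem_iUnion, exists_prop, and_assoc]
  rw [this]
  refine (isOpen_lt (by fun_prop) continuous_const).inter (isOpen_iUnion fun r =>
    isOpen_iUnion fun _ => isOpen_lt (hσ.comp (by fun_prop)) continuous_const)

theorem h32_local (hσ : Continuous σ) {a b δ : ℝ} {w₀ w : ℂ} (hw : w ∈ h32O σ a b w₀ δ) :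
    ∃ r, 0 ≤ r ∧ InBox σ a b w₀ δ r w ∧ ∀ᶠ w' in nhds w, InBox σ a b w₀ δ r w' ∧
      ∀ t ∈ Icc (0 : ℝ) 1, σ (r, w + t * (w' - w)) ≤ 0 := by
  obtain ⟨h1, r, hr, ha, hb, hs⟩ := hw
  have hopen1 : IsOpen {w' : ℂ | ‖w' - w₀‖ < δ} := isOpen_lt (by fun_prop) continuous_const
  have hopen2 : IsOpen {w' : ℂ | σ (r, w') < 0} :=
    isOpen_lt (hσ.comp (by fun_prop)) continuous_const
  have hopen : IsOpen {w' : ℂ | ‖w' - w₀‖ < δ ∧ σ (r, w') < 0} := hopen1.inter hopen2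
  obtain ⟨ε, hε, hball⟩ := Metric.isOpen_iff.mp hopen w ⟨h1, hs⟩
  refine ⟨r, hr, ⟨hr, hs.le, ha, hb, h1⟩, ?_⟩
  filter_upwards [Metric.ball_mem_nhds w hε] with w' hw'
  have h2 := hball hw'
  refine ⟨⟨hr, h2.2.le, ha, hb, h2.1⟩, fun t ht => ?_⟩
  have h3 : w + t * (w' - w) ∈ ball w ε := by
    rw [mem_ball, dist_eq_norm] at hw' ⊢
    have : w + t * (w' - w) - w = t * (w' - w) := by ring
    rw [this, norm_mul, Complex.norm_real, Real.norm_eq_abs, abs_of_nonneg ht.1]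
    calc t * ‖w' - w‖ ≤ 1 * ‖w' - w‖ := by gcongr; exact ht.2
      _ < ε := by linarith
  exact (hball h3).2.le

theorem h32_one (hσ : Slice σ) (hA : JetSys σ A0 A1 A2) {a b δ C : ℝ} {w₀ : ℂ}
    (hb : GoodBox σ a b w₀ δ) (hC : BoxTay σ A0 A1 A2 a b w₀ δ C) {g : ℝ} (hg0 : 0 < g)
    (hg : ∀ r w, 0 ≤ r → σ (r, w) ≤ 0 → ‖w - w₀‖ ≤ δ → g ≤ |r - a| ∧ g ≤ |r - b|) :
    ∃ c e0 : ℝ, 0 < c ∧ c ≤ 1 ∧ 0 < e0 ∧ ∀ c' e, 0 < c' → c' ≤ c → 0 < e → e < e0 →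
      ∃ Q : ℂ → ℂ, DifferentiableOn ℂ Q {w | ‖w - w₀‖ < δ / 2 ∧
          ∃ r, Near σ (c' * e) r w ∧ a < r ∧ r < b} ∧
        ∀ w ∈ {w | ‖w - w₀‖ < δ / 2 ∧ ∃ r, Near σ (c' * e) r w ∧ a < r ∧ r < b}, ∀ r' w',
          0 ≤ r' → σ (r', w') ≤ 0 → (a < r' ∧ r' < b) →
          ‖w - w'‖ < c' * e → ‖Q w - tpoly A0 A1 A2 r' w' w‖ ≤ 13 * C * e ^ 3 := by
  obtain ⟨v, c, ε₀, hv, hc0, hc1, hε₀, hpush⟩ := hb.push
  obtain ⟨hC0, hC⟩ := hC
  have hδ := hb.hδ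
  have hcont : Continuous σ := hσ.smooth.continuous
  obtain ⟨K, hK0, hK⟩ := hA.tay
  refine ⟨c, min ε₀ (min (δ / 2) g), hc0, hc1, by positivity, ?_⟩
  intro c' e hc' hc'c he hee
  have he1 : e < ε₀ := hee.trans_le (min_le_left _ _)
  have he2 : e < δ / 2 := hee.trans_le ((min_le_right _ _).trans (min_le_left _ _))
  have he3 : e < g := hee.trans_le ((min_le_right _ _).trans (min_le_right _ _))
  have hce : c' * e ≤ e := by nlinarith
  have hce' : c' * e ≤ c * e := by gcongr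
  -- jets are well defined
  have hfib : ∀ r r' w, InBox σ a b w₀ δ r w → InBox σ a b w₀ δ r' w →
      A0 r w = A0 r' w ∧ A1 r w = A1 r' w ∧ A2 r w = A2 r' w := fun r r' w h h' =>
    hA.fib r r' w h.1 h'.1 (hb.fib r r' w h h')
  set B0 := h32At σ a b w₀ δ A0 with hB0
  set B1 := h32At σ a b w₀ δ A1 with hB1
  set B2 := h32At σ a b w₀ δ A2 with hB2
  have e0 : ∀ {r w}, InBox σ a b w₀ δ r w → B0 w = A0 r w := fun h =>
    h32At_eq (fun r r' w h h' => (hfib r r' w h h').1) h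
  have e1 : ∀ {r w}, InBox σ a b w₀ δ r w → B1 w = A1 r w := fun h =>
    h32At_eq (fun r r' w h h' => (hfib r r' w h h').2.1) h
  have e2 : ∀ {r w}, InBox σ a b w₀ δ r w → B2 w = A2 r w := fun h =>
    h32At_eq (fun r r' w h h' => (hfib r r' w h h').2.2) h
  have hO := h32O_open hcont a b w₀ δ
  -- derivatives
  have hd0 : ∀ w ∈ h32O σ a b w₀ δ, HasDerivAt B0 (B1 w) w := by
    intro w hw
    obtain ⟨r, hr, hin, hev⟩ := h32_local hcont hw
    refine h32_hasDerivAt (K := K + ‖A2 r w‖) ?_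
    filter_upwards [hev, Metric.ball_mem_nhds w one_pos] with w' hw' hw1
    obtain ⟨hin', hseg⟩ := hw'
    have h1 := (hK r w w' hr hseg).1
    rw [mem_ball, dist_eq_norm] at hw1
    rw [e0 hin', e0 hin, e1 hin]
    have h2 : A0 r w' - A0 r w - A1 r w * (w' - w) =
        (A0 r w' - tpoly A0 A1 A2 r w w') + A2 r w * (w' - w) ^ 2 / 2 := by
      simp only [tpoly]
      ring
    rw [h2]
    have hn : 0 ≤ ‖w' - w‖ := norm_nonneg _
    calc ‖(A0 r w' - tpoly A0 A1 A2 r w w') + A2 r w * (w' - w) ^ 2 / 2‖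
        ≤ ‖A0 r w' - tpoly A0 A1 A2 r w w'‖ + ‖A2 r w * (w' - w) ^ 2 / 2‖ := norm_add_le _ _
      _ ≤ K * ‖w' - w‖ ^ 3 + ‖A2 r w‖ * ‖w' - w‖ ^ 2 := by
          refine add_le_add h1 ?_
          rw [norm_div, norm_mul, norm_pow, Complex.norm_ofNat]
          have : 0 ≤ ‖A2 r w‖ * ‖w' - w‖ ^ 2 := by positivity
          linarith
      _ ≤ K * ‖w' - w‖ ^ 2 + ‖A2 r w‖ * ‖w' - w‖ ^ 2 := by
          have : ‖w' - w‖ ^ 3 ≤ ‖w' - w‖ ^ 2 := pow_le_pow_of_le_one hn hw1.le (by norm_num)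
          gcongr
      _ = (K + ‖A2 r w‖) * ‖w' - w‖ ^ 2 := by ring
  have hd1 : ∀ w ∈ h32O σ a b w₀ δ, HasDerivAt B1 (B2 w) w := by
    intro w hw
    obtain ⟨r, hr, hin, hev⟩ := h32_local hcont hw
    refine h32_hasDerivAt (K := K) ?_
    filter_upwards [hev] with w' hw'
    obtain ⟨hin', hseg⟩ := hw'
    have h1 := (hK r w w' hr hseg).2.1
    rw [e1 hin', e1 hin, e2 hin]
    have h2 : A1 r w' - A1 r w - A2 r w * (w' - w) =
        A1 r w' - (A1 r w + A2 r w * (w' - w)) := by ring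
    rw [h2]
    exact h1
  have D0 : DifferentiableOn ℂ B0 (h32O σ a b w₀ δ) := fun w hw =>
    (hd0 w hw).differentiableAt.differentiableWithinAt
  have D1 : DifferentiableOn ℂ B1 (h32O σ a b w₀ δ) := fun w hw =>
    (hd1 w hw).differentiableAt.differentiableWithinAt
  have D2 : DifferentiableOn ℂ B2 (h32O σ a b w₀ δ) :=
    (D1.deriv hO).congr fun w hw => (hd1 w hw).deriv.symm
  -- pushing
  have hbox : ∀ w r r' w', ‖w - w₀‖ < δ / 2 → 0 ≤ r' → σ (r', w') ≤ 0 → ‖w - w'‖ < c' * e →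
      |r - r'| < c' * e → a < r → r < b → InBox σ a b w₀ δ r' w' := by
    intro w r r' w' hw hr' hs' hww hrr ha hb'
    have h1 : ‖w' - w₀‖ < δ := by
      calc ‖w' - w₀‖ = ‖(w - w₀) - (w - w')‖ := by congr 1; ring
        _ ≤ ‖w - w₀‖ + ‖w - w'‖ := norm_sub_le _ _
        _ < δ := by linarith
    obtain ⟨g1, g2⟩ := hg r' w' hr' hs' h1.le
    rw [abs_lt] at hrr
    refine ⟨hr', hs', ?_, ?_, h1⟩
    · by_contra hlt
      push Not at hlt
      rw [abs_of_nonpos (by linarith)] at g1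
      linarith
    · by_contra hlt
      push Not at hlt
      rw [abs_of_nonneg (by linarith)] at g2
      linarith
  have hpush' : ∀ w, ‖w - w₀‖ < δ / 2 → ∀ r' w', InBox σ a b w₀ δ r' w' → ‖w - w'‖ < c' * e →
      ∃ r'', 0 ≤ r'' ∧ σ (r'', w + e * v) < 0 ∧ InBox σ a b w₀ δ r'' (w + e * v) := by
    intro w hw r' w' hin hww
    obtain ⟨r'', h0, ha, hb', hs⟩ := hpush e he he1 r' w' w hin (hww.trans_le hce')
    have h1 : ‖w + e * v - w₀‖ < δ := by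
      calc ‖w + e * v - w₀‖ = ‖(w - w₀) + e * v‖ := by congr 1; ring
        _ ≤ ‖w - w₀‖ + ‖(e : ℂ) * v‖ := norm_add_le _ _
        _ ≤ ‖w - w₀‖ + e * 1 := by
            rw [norm_mul, Complex.norm_real, Real.norm_eq_abs, abs_of_pos he]
            gcongr
        _ < δ := by linarith
    exact ⟨r'', h0, hs, h0, hs.le, ha, hb', h1⟩
  refine ⟨fun w => B0 (w + e * v) - e * v * B1 (w + e * v) +
    (e * v) ^ 2 / 2 * B2 (w + e * v), ?_, ?_⟩
  · have hmaps : MapsTo (fun w : ℂ => w + e * v) {w | ‖w - w₀‖ < δ / 2 ∧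
        ∃ r, Near σ (c' * e) r w ∧ a < r ∧ r < b} (h32O σ a b w₀ δ) := by
      rintro w ⟨hw, r, ⟨hr, r1, w1, hr1, hs1, hrr, hww⟩, har, hrb⟩
      have hin := hbox w r r1 w1 hw hr1 hs1 hww hrr har hrb
      obtain ⟨r'', h0, hs, hin''⟩ := hpush' w hw r1 w1 hin hww
      exact ⟨hin''.2.2.2.2, r'', h0, hin''.2.2.1, hin''.2.2.2.1, hs⟩
    have hT : DifferentiableOn ℂ (fun w : ℂ => w + e * v) {w | ‖w - w₀‖ < δ / 2 ∧
        ∃ r, Near σ (c' * e) r w ∧ a < r ∧ r < b} := by fun_prop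
    have F0 := D0.comp hT hmaps
    have F1 := D1.comp hT hmaps
    have F2 := D2.comp hT hmaps
    exact (F0.sub (F1.const_mul _)).add (F2.const_mul _)
  · rintro w ⟨hw, -⟩ r' w' hr' hs' ⟨har, hrb⟩ hww
    have hin := hbox w r' r' w' hw hr' hs' hww (by simp; positivity) har hrb
    obtain ⟨r'', h0, hs, hin''⟩ := hpush' w hw r' w' hin hww
    obtain ⟨t0, t1, t2⟩ := hC r' w' r'' (w + e * v) hin hin''
    simp only [e0 hin'', e1 hin'', e2 hin'']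
    set W : ℂ := w + e * v with hW
    have hs2 : ‖W - w'‖ ≤ 2 * e := by
      calc ‖W - w'‖ = ‖(w - w') + e * v‖ := by rw [hW]; congr 1; ring
        _ ≤ ‖w - w'‖ + ‖(e : ℂ) * v‖ := norm_add_le _ _
        _ ≤ e + e * 1 := by
            rw [norm_mul, Complex.norm_real, Real.norm_eq_abs, abs_of_pos he]
            gcongr
            linarith
        _ = 2 * e := by ring
    have hz : ‖(e : ℂ) * v‖ ≤ e := by
      rw [norm_mul, Complex.norm_real, Real.norm_eq_abs, abs_of_pos he]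
      nlinarith
    have halg : A0 r'' W - e * v * A1 r'' W + (e * v) ^ 2 / 2 * A2 r'' W -
        tpoly A0 A1 A2 r' w' w = (A0 r'' W - tpoly A0 A1 A2 r' w' W) -
        e * v * (A1 r'' W - (A1 r' w' + A2 r' w' * (W - w'))) +
        (e * v) ^ 2 / 2 * (A2 r'' W - A2 r' w') := by
      simp only [tpoly, hW]
      ring
    rw [halg]
    calc ‖(A0 r'' W - tpoly A0 A1 A2 r' w' W) -
        e * v * (A1 r'' W - (A1 r' w' + A2 r' w' * (W - w'))) +
        (e * v) ^ 2 / 2 * (A2 r'' W - A2 r' w')‖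
        ≤ ‖A0 r'' W - tpoly A0 A1 A2 r' w' W‖ +
          ‖(e : ℂ) * v * (A1 r'' W - (A1 r' w' + A2 r' w' * (W - w')))‖ +
          ‖((e : ℂ) * v) ^ 2 / 2 * (A2 r'' W - A2 r' w')‖ :=
          (norm_add_le _ _).trans (by gcongr; exact norm_sub_le _ _)
      _ ≤ C * (2 * e) ^ 3 + e * (C * (2 * e) ^ 2) + e ^ 2 / 2 * (C * (2 * e)) := by
          rw [norm_mul, norm_mul (((e : ℂ) * v) ^ 2 / 2), norm_div, norm_pow, Complex.norm_ofNat]
          refine add_le_add (add_le_add (t0.trans ?_) ?_) ?_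
          · gcongr
          · exact mul_le_mul hz (t1.trans (by gcongr)) (norm_nonneg _) he.le
          · refine mul_le_mul ?_ (t2.trans (by gcongr)) (norm_nonneg _) (by positivity)
            gcongr
      _ = 13 * C * e ^ 3 := by ring

theorem h32_lower {m : ℕ} (f : Fin m → ℝ) (hf : ∀ i, 0 < f i) :
    ∃ x : ℝ, 0 < x ∧ x ≤ 1 ∧ ∀ i, x ≤ f i := by
  have hs : ∀ i, (f i)⁻¹ ≤ ∑ j, (f j)⁻¹ := fun i =>
    Finset.single_le_sum (f := fun j => (f j)⁻¹) (fun j _ => (inv_pos.mpr (hf j)).le)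
      (Finset.mem_univ i)
  have hs0 : 0 ≤ ∑ j, (f j)⁻¹ := Finset.sum_nonneg fun j _ => (inv_pos.mpr (hf j)).le
  refine ⟨(1 + ∑ j, (f j)⁻¹)⁻¹, by positivity, ?_, fun i => ?_⟩
  · exact inv_le_one_of_one_le₀ (by linarith)
  · rw [inv_le_comm₀ (by positivity) (hf i)]
    linarith [hs i]

theorem local_approx (hσ : Slice σ) (X : Cover σ m) (hA : JetSys σ A0 A1 A2) {g : ℝ}
    (hg : Gap X g)
    (htay : ∀ i, ∃ C : ℝ, BoxTay σ A0 A1 A2 (X.a i) (X.b i) (X.c i) (X.δ i) C) :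
    ∃ C c e0 : ℝ, 0 ≤ C ∧ 0 < c ∧ c ≤ 1 ∧ 0 < e0 ∧ ∀ e, 0 < e → e < e0 →
      ∃ Q : Fin m → ℂ → ℂ, (∀ i, DifferentiableOn ℂ (Q i) (X.P (c * e) i)) ∧
        ∀ i, ∀ w ∈ X.P (c * e) i, ∀ r' w', 0 ≤ r' → σ (r', w') ≤ 0 → X.InN i r' →
          ‖w - w'‖ < c * e → ‖Q i w - tpoly A0 A1 A2 r' w' w‖ ≤ C * e ^ 3 := by
  choose C hC using htay
  choose c e0 hc0 hc1 he0 hmain using fun i =>
    h32_one hσ hA (X.box i) (hC i) hg.1 (fun r w => hg.2 i r w)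
  obtain ⟨c', hc', hc'1, hc'i⟩ := h32_lower c hc0
  obtain ⟨e', he', he'1, he'i⟩ := h32_lower e0 he0
  have hCn : ∀ i, 0 ≤ C i := fun i => (hC i).1
  refine ⟨∑ j, 13 * C j, c', e', Finset.sum_nonneg fun j _ => by linarith [hCn j], hc', hc'1,
    he', fun e he hee => ?_⟩
  choose Q hQ1 hQ2 using fun i => hmain i c' e hc' (hc'i i) he (hee.trans_le (he'i i))
  refine ⟨Q, hQ1, fun i w hw r' w' hr' hs' hN hww => ?_⟩
  refine (hQ2 i w hw r' w' hr' hs' hN hww).trans ?_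
  have : 13 * C i ≤ ∑ j, 13 * C j :=
    Finset.single_le_sum (f := fun j => 13 * C j) (fun j _ => by linarith [hCn j])
      (Finset.mem_univ i)
  gcongr

end Pool.Helper51.Hart
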